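import Pool.Agent.E8helper39.WW.Stm

/-!
# Project WW (MP_a50277_co), piece VER
-/

set_option autoImplicit false

open Module Submodule Finset

namespace Pool.Agent.E8helper85.WW

open WW39

lemma det3_sum {ι : Type} (s : Finset ι) (t : ι → ℝ) (v : ι → Fin 3 → ℝ) (x y : Fin 3 → ℝ) :
    det3 x y (fun j => ∑ k ∈ s, t k * v k j) = ∑ k ∈ s, t k * det3 x y (v k) := by
  classical
  induction s using Finset.induction_on with
  | empty => simp [det3]
  | insert a s ha ih =>
    rw [Finset.sum_insert ha, ← ih]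
    unfold det3
    simp only [Finset.sum_insert ha]
    ring

lemma det3_comb (x y p : Fin 3 → ℝ) (u v : ℝ) :
    det3 x y (fun j => u * p j + v * y j) = u * det3 x y p := by
  unfold det3
  ring

lemma det3_swap (x y z : Fin 3 → ℝ) : det3 x y z = - det3 y x z := by
  unfold det3
  ring

theorem t_VER (h1 : S_W) (h2 : S_DIV) : S_VER := by
  intro n C₁ C₂ l m p₀ y₀ G H hdis hS hl hm hp₀ hy₀ hlp hmy hG hH hGp hGz hHy hHz
  obtain ⟨N, A, B, c, hA, hB, hW⟩ := h1 (n + 1) G H hG hH
  set w : (Fin 3 → ℝ) → (Fin 3 → ℝ) → Fin 3 → ℝ := fun x y j =>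
    ∑ k, (MvPolynomial.eval x (A k) * MvPolynomial.eval y (B k)) * c k j with hw
  have hW' : ∀ x y, MvPolynomial.eval x G * MvPolynomial.eval y H
      - MvPolynomial.eval y G * MvPolynomial.eval x H = det3 x y (w x y) := by
    intro x y
    rw [hW, hw]
    exact (det3_sum _ _ _ _ _).symm
  have hne : ∀ p ∈ C₁, ∀ y ∈ C₂, p ≠ y := fun p hp y hy h =>
    Finset.disjoint_left.1 hdis hp (h ▸ hy)
  have m1 : ∀ p ∈ C₁, p ∈ C₁ ∪ C₂ := fun p hp => Finset.mem_union_left _ hp
  have m2 : ∀ p ∈ C₂, p ∈ C₁ ∪ C₂ := fun p hp => Finset.mem_union_right _ hp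
  have hP : ∀ p, p ∈ C₁ → p ≠ p₀ → ∃ a b : Pol, a.IsHomogeneous (n + 1) ∧ b.IsHomogeneous n ∧
      ∀ y j, w p y j = MvPolynomial.eval y a * p j + MvPolynomial.eval y b * y j := by
    intro p hp hpp
    have hev : ∀ (y : Fin 3 → ℝ) (j : Fin 3), MvPolynomial.eval y
        (∑ k, MvPolynomial.C (MvPolynomial.eval p (A k) * c k j) * B k) = w p y j := by
      intro y j
      simp only [map_sum, map_mul, MvPolynomial.eval_C, hw]
      exact Finset.sum_congr rfl fun k _ => by ring
    obtain ⟨a, b, ha, hb, hab⟩ := h2 n p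
      (fun j => ∑ k, MvPolynomial.C (MvPolynomial.eval p (A k) * c k j) * B k)
      (hS.1 p (m1 p hp))
      (fun j => MvPolynomial.IsHomogeneous.sum _ _ _ fun k _ => (hB k).C_mul _) (by
        intro y
        have e1 : (fun j => MvPolynomial.eval y
            (∑ k, MvPolynomial.C (MvPolynomial.eval p (A k) * c k j) * B k)) = w p y :=
          funext fun j => hev y j
        rw [e1, ← hW', hGz p (m1 p hp) hpp, hHz p (m1 p hp) (hne p hp y₀ hy₀)]
        ring)
    exact ⟨a, b, ha, hb, fun y j => by rw [← hab y j, hev y j]⟩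
  have hY : ∀ y, y ∈ C₂ → y ≠ y₀ → ∃ a b : Pol, a.IsHomogeneous (n + 1) ∧ b.IsHomogeneous n ∧
      ∀ x j, w x y j = MvPolynomial.eval x a * y j + MvPolynomial.eval x b * x j := by
    intro y hy hyy
    have hev : ∀ (x : Fin 3 → ℝ) (j : Fin 3), MvPolynomial.eval x
        (∑ k, MvPolynomial.C (MvPolynomial.eval y (B k) * c k j) * A k) = w x y j := by
      intro x j
      simp only [map_sum, map_mul, MvPolynomial.eval_C, hw]
      exact Finset.sum_congr rfl fun k _ => by ring
    obtain ⟨a, b, ha, hb, hab⟩ := h2 n y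
      (fun j => ∑ k, MvPolynomial.C (MvPolynomial.eval y (B k) * c k j) * A k)
      (hS.1 y (m2 y hy))
      (fun j => MvPolynomial.IsHomogeneous.sum _ _ _ fun k _ => (hA k).C_mul _) (by
        intro x
        have e1 : (fun j => MvPolynomial.eval x
            (∑ k, MvPolynomial.C (MvPolynomial.eval y (B k) * c k j) * A k)) = w x y :=
          funext fun j => hev x j
        rw [e1, det3_swap, ← hW', hGz y (m2 y hy) (hne p₀ hp₀ y hy).symm, hHz y (m2 y hy) hyy]
        ring)
    exact ⟨a, b, ha, hb, fun x j => by rw [← hab x j, hev x j]⟩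
  choose! a b ha hb hab using hP
  choose! a' b' ha' hb' hab' using hY
  -- the dependency
  have hsum : ∀ y j, ∑ p ∈ C₁, l p * w p y j = 0 := by
    intro y j
    simp only [hw, Finset.mul_sum]
    rw [Finset.sum_comm]
    refine Finset.sum_eq_zero fun k _ => ?_
    have e1 : ∑ p ∈ C₁, l p * ((MvPolynomial.eval p (A k) * MvPolynomial.eval y (B k)) * c k j) =
        (MvPolynomial.eval y (B k) * c k j) * ∑ p ∈ C₁, l p * MvPolynomial.eval p (A k) := by
      rw [Finset.mul_sum]
      exact Finset.sum_congr rfl fun p _ => by ring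
    rw [e1, hl (A k) (hA k), mul_zero]
  -- the form `q`
  set q : Pol := ∑ p ∈ C₁.erase p₀, MvPolynomial.C (l p * det3 p₀ y₀ p) * a p with hq
  have hqh : q.IsHomogeneous (n + 1) := by
    refine MvPolynomial.IsHomogeneous.sum _ _ _ fun p hp => ?_
    rw [Finset.mem_erase] at hp
    exact (ha p hp.2 hp.1).C_mul _
  have hqe : ∀ y, MvPolynomial.eval y q =
      ∑ p ∈ C₁.erase p₀, l p * (MvPolynomial.eval y (a p) * det3 p₀ y₀ p) := by
    intro y
    simp only [hq, map_sum, map_mul, MvPolynomial.eval_C]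
    exact Finset.sum_congr rfl fun p _ => by ring
  have hq0 : MvPolynomial.eval y₀ q = - l p₀ := by
    have e1 : ∀ p ∈ C₁.erase p₀, l p * (MvPolynomial.eval y₀ (a p) * det3 p₀ y₀ p) =
        l p * det3 p₀ y₀ (w p y₀) := by
      intro p hp
      rw [Finset.mem_erase] at hp
      have e2 : w p y₀ = fun j => MvPolynomial.eval y₀ (a p) * p j +
          MvPolynomial.eval y₀ (b p) * y₀ j := funext fun j => hab p hp.2 hp.1 y₀ j
      rw [e2, det3_comb]
    rw [hqe, Finset.sum_congr rfl e1]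
    have e3 : ∑ p ∈ C₁, l p * det3 p₀ y₀ (w p y₀) = 0 := by
      rw [← det3_sum]
      have e4 : (fun j => ∑ p ∈ C₁, l p * w p y₀ j) = fun _ => 0 := funext fun j => hsum y₀ j
      rw [e4]
      simp [det3]
    rw [← Finset.add_sum_erase _ _ hp₀, ← hW', hGp, hHy,
      hGz y₀ (m2 _ hy₀) (hne p₀ hp₀ y₀ hy₀).symm] at e3
    linarith
  have hq1 : ∀ y ∈ C₂, y ≠ y₀ → MvPolynomial.eval y q = 0 := by
    intro y hy hyy
    have e1 : ∀ p ∈ C₁.erase p₀, l p * (MvPolynomial.eval y (a p) * det3 p₀ y₀ p) =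
        l p * (MvPolynomial.eval p (b' y) * det3 p₀ y₀ p) := by
      intro p hp
      rw [Finset.mem_erase] at hp
      have e2 : MvPolynomial.eval y (a p) = MvPolynomial.eval p (b' y) := by
        by_contra hcon
        have hcon' : MvPolynomial.eval y (a p) - MvPolynomial.eval p (b' y) ≠ 0 :=
          sub_ne_zero.2 hcon
        have e3 : p = ((MvPolynomial.eval p (a' y) - MvPolynomial.eval y (b p)) /
            (MvPolynomial.eval y (a p) - MvPolynomial.eval p (b' y))) • y := by
          funext j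
          have e4 := hab p hp.2 hp.1 y j
          have e5 := hab' y hy hyy p j
          rw [e4] at e5
          rw [Pi.smul_apply, smul_eq_mul, div_mul_eq_mul_div, eq_div_iff hcon']
          linarith
        exact hne p hp.2 y hy (hS.2 y (m2 y hy) p (m1 p hp.2) _ e3)
      rw [e2]
    rw [hqe, Finset.sum_congr rfl e1]
    have e6 : ∑ p ∈ C₁.erase p₀, l p * (MvPolynomial.eval p (b' y) * det3 p₀ y₀ p) =
        ∑ p ∈ C₁, l p * (MvPolynomial.eval p (b' y) * det3 p₀ y₀ p) := by
      rw [← Finset.add_sum_erase _ _ hp₀]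
      have e7 : det3 p₀ y₀ p₀ = 0 := by
        unfold det3
        ring
      rw [e7]
      ring
    rw [e6]
    set F : Pol := b' y * (MvPolynomial.C (p₀ 1 * y₀ 2 - p₀ 2 * y₀ 1) * MvPolynomial.X 0 +
      MvPolynomial.C (p₀ 2 * y₀ 0 - p₀ 0 * y₀ 2) * MvPolynomial.X 1 +
      MvPolynomial.C (p₀ 0 * y₀ 1 - p₀ 1 * y₀ 0) * MvPolynomial.X 2) with hF
    have hFh : F.IsHomogeneous (n + 1) := by
      refine (hb' y hy hyy).mul ?_
      exact (((MvPolynomial.isHomogeneous_X _ _).C_mul _).add
        ((MvPolynomial.isHomogeneous_X _ _).C_mul _)).add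
        ((MvPolynomial.isHomogeneous_X _ _).C_mul _)
    rw [← hl F hFh]
    refine Finset.sum_congr rfl fun p _ => ?_
    rw [hF]
    simp only [map_mul, map_add, MvPolynomial.eval_C, MvPolynomial.eval_X, det3]
    ring
  have h3 := hm q hqh
  rw [← Finset.add_sum_erase _ _ hy₀, hq0] at h3
  have h4 : ∑ y ∈ C₂.erase y₀, m y * MvPolynomial.eval y q = 0 := by
    refine Finset.sum_eq_zero fun y hy => ?_
    rw [Finset.mem_erase] at hy
    rw [hq1 y hy.2 hy.1, mul_zero]
  rw [h4, add_zero] at h3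
  rcases mul_eq_zero.1 h3 with h5 | h5
  · exact hmy h5
  · exact hlp (neg_eq_zero.1 h5)

end Pool.Agent.E8helper85.WW
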